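import Mathlib

/-!
Polynomial numerical index of `c₀`- and `ℓ_∞`-sums of complex spaces: the abstract argument.
-/

set_option autoImplicit false

open Metric

namespace Pool.Agent.TH247.PNI

/-- norm of the `k`-homogeneous polynomial `x ↦ A (x, …, x)` -/
noncomputable def N {k : ℕ} {E : Type*} [NormedAddCommGroup E] [NormedSpace ℂ E]
    (A : ContinuousMultilinearMap ℂ (fun _ : Fin k => E) E) : ℝ :=
  sSup {s : ℝ | ∃ x : E, ‖x‖ ≤ 1 ∧ s = ‖A (fun _ => x)‖}

/-- numerical radius -/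
noncomputable def V {k : ℕ} {E : Type*} [NormedAddCommGroup E] [NormedSpace ℂ E]
    (A : ContinuousMultilinearMap ℂ (fun _ : Fin k => E) E) : ℝ :=
  sSup {s : ℝ | ∃ (x : E) (φ : E →L[ℂ] ℂ), ‖x‖ = 1 ∧ ‖φ‖ = 1 ∧ φ x = 1 ∧
                  s = ‖φ (A (fun _ => x))‖}

/-- polynomial numerical index of order `k` -/
noncomputable def Idx (k : ℕ) (E : Type*) [NormedAddCommGroup E] [NormedSpace ℂ E] : ℝ :=
  sInf {r : ℝ | ∃ A : ContinuousMultilinearMap ℂ (fun _ : Fin k => E) E, N A = 1 ∧ r = V A}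

section basic

variable {k : ℕ} {E : Type*} [NormedAddCommGroup E] [NormedSpace ℂ E]
  (A : ContinuousMultilinearMap ℂ (fun _ : Fin k => E) E)

theorem le_op (x : E) (hx : ‖x‖ ≤ 1) : ‖A (fun _ => x)‖ ≤ ‖A‖ := by
  refine (A.le_opNorm _).trans ?_
  have : ∏ _i : Fin k, ‖x‖ ≤ 1 := Finset.prod_le_one (fun _ _ => norm_nonneg _) (fun _ _ => hx)
  simpa using mul_le_mul_of_nonneg_left this (norm_nonneg A)

theorem bddN : BddAbove {s : ℝ | ∃ x : E, ‖x‖ ≤ 1 ∧ s = ‖A (fun _ => x)‖} :=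
  ⟨‖A‖, by rintro s ⟨x, hx, rfl⟩; exact le_op A x hx⟩

theorem bddV : BddAbove {s : ℝ | ∃ (x : E) (φ : E →L[ℂ] ℂ), ‖x‖ = 1 ∧ ‖φ‖ = 1 ∧ φ x = 1 ∧
                  s = ‖φ (A (fun _ => x))‖} := by
  refine ⟨‖A‖, ?_⟩
  rintro s ⟨x, φ, hx, hφ, -, rfl⟩
  refine (φ.le_opNorm _).trans ?_
  rw [hφ, one_mul]
  exact le_op A x hx.le

theorem le_N (x : E) (hx : ‖x‖ ≤ 1) : ‖A (fun _ => x)‖ ≤ N A := le_csSup (bddN A) ⟨x, hx, rfl⟩

theorem le_V (x : E) (φ : E →L[ℂ] ℂ) (hx : ‖x‖ = 1) (hφ : ‖φ‖ = 1) (h : φ x = 1) :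
    ‖φ (A (fun _ => x))‖ ≤ V A := le_csSup (bddV A) ⟨x, φ, hx, hφ, h, rfl⟩

theorem V_nonneg : 0 ≤ V A := by
  apply Real.sSup_nonneg
  rintro s ⟨x, φ, -, -, -, rfl⟩
  exact norm_nonneg _

theorem V_le {r : ℝ} (hr : 0 ≤ r) (h : ∀ (x : E) (φ : E →L[ℂ] ℂ), ‖x‖ = 1 → ‖φ‖ = 1 → φ x = 1 →
    ‖φ (A (fun _ => x))‖ ≤ r) : V A ≤ r := by
  apply Real.sSup_le _ hr
  rintro s ⟨x, φ, h1, h2, h3, rfl⟩
  exact h x φ h1 h2 h3

theorem N_le {r : ℝ} (hr : 0 ≤ r) (h : ∀ x : E, ‖x‖ ≤ 1 → ‖A (fun _ => x)‖ ≤ r) : N A ≤ r := by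
  apply Real.sSup_le _ hr
  rintro s ⟨x, h1, rfl⟩
  exact h x h1

theorem bdd_idx : BddBelow {r : ℝ | ∃ A : ContinuousMultilinearMap ℂ (fun _ : Fin k => E) E,
    N A = 1 ∧ r = V A} := ⟨0, by rintro r ⟨A, -, rfl⟩; exact V_nonneg A⟩

theorem idx_le (h : N A = 1) : Idx k E ≤ V A := csInf_le bdd_idx ⟨A, h, rfl⟩

theorem idx_nonneg : 0 ≤ Idx k E := by
  apply Real.sInf_nonneg
  rintro r ⟨A, -, rfl⟩
  exact V_nonneg A

theorem exists_unit [Nontrivial E] : ∃ (x : E) (φ : E →L[ℂ] ℂ), ‖x‖ = 1 ∧ ‖φ‖ = 1 ∧ φ x = 1 := by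
  obtain ⟨x, hx⟩ := exists_norm_eq E (zero_le_one' ℝ)
  have hx0 : x ≠ 0 := by
    rintro rfl
    simp at hx
  obtain ⟨φ, h1, h2⟩ := exists_dual_vector ℂ x (norm_ne_zero_iff.2 hx0)
  exact ⟨x, φ, hx, h1, by rw [h2, hx]; simp⟩

theorem exists_one [Nontrivial E] (hk : 1 ≤ k) :
    ∃ A : ContinuousMultilinearMap ℂ (fun _ : Fin k => E) E, N A = 1 := by
  obtain ⟨x, φ, hx, hφ, h⟩ := exists_unit (E := E)
  let B : ContinuousMultilinearMap ℂ (fun _ : Fin k => E) ℂ :=
    (ContinuousMultilinearMap.mkPiAlgebra ℂ (Fin k) ℂ).compContinuousLinearMap (fun _ => φ)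
  have hB : ∀ y : E, B (fun _ => y) = φ y ^ k := by
    intro y
    simp [B, ContinuousMultilinearMap.compContinuousLinearMap_apply]
  refine ⟨B.smulRight x, ?_⟩
  have hA : ∀ y : E, (B.smulRight x) (fun _ => y) = (φ y ^ k) • x := by
    intro y
    rw [ContinuousMultilinearMap.smulRight_apply, hB]
  apply le_antisymm
  · apply N_le _ zero_le_one
    intro y hy
    rw [hA, norm_smul, hx, mul_one, norm_pow]
    apply pow_le_one₀ (norm_nonneg _)
    calc ‖φ y‖ ≤ ‖φ‖ * ‖y‖ := φ.le_opNorm y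
      _ ≤ 1 := by rw [hφ, one_mul]; exact hy
  · have := le_N (B.smulRight x) x hx.le
    rw [hA, h] at this
    simpa [hx] using this

theorem nonempty_idx [Nontrivial E] (hk : 1 ≤ k) :
    {r : ℝ | ∃ A : ContinuousMultilinearMap ℂ (fun _ : Fin k => E) E, N A = 1 ∧ r = V A}.Nonempty := by
  obtain ⟨A, hA⟩ := exists_one (E := E) hk
  exact ⟨V A, A, hA, rfl⟩

/-- scaling -/
theorem idx_mul_le {c : ℝ} (hc : 0 < c) (hA : N A = c) : Idx k E * c ≤ V A := by
  set B : ContinuousMultilinearMap ℂ (fun _ : Fin k => E) E := ((c : ℂ)⁻¹) • A with hB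
  have e : ∀ x : E, ‖B (fun _ => x)‖ = c⁻¹ * ‖A (fun _ => x)‖ := by
    intro x
    rw [hB, ContinuousMultilinearMap.smul_apply, norm_smul, norm_inv, Complex.norm_real,
      Real.norm_of_nonneg hc.le]
  have h1 : N B = 1 := by
    have : c * N B = c := by
      apply le_antisymm
      · have : N B ≤ 1 := by
          apply N_le _ zero_le_one
          intro x hx
          rw [e, inv_mul_le_iff₀ hc, mul_one, ← hA]
          exact le_N A x hx
        nlinarith
      · calc c = N A := hA.symm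
          _ ≤ c * N B := by
            apply N_le
            · apply mul_nonneg hc.le
              apply Real.sSup_nonneg
              rintro s ⟨x, -, rfl⟩
              exact norm_nonneg _
            · intro x hx
              have := le_N B x hx
              rw [e, inv_mul_le_iff₀ hc] at this
              exact this
    have := mul_left_cancel₀ hc.ne' (this.trans (mul_one c).symm)
    exact this
  have h2 : V B ≤ c⁻¹ * V A := by
    apply V_le _ (mul_nonneg (inv_nonneg.2 hc.le) (V_nonneg A))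
    intro x φ hx hφ h
    rw [hB, ContinuousMultilinearMap.smul_apply, map_smul, norm_smul, norm_inv, Complex.norm_real,
      Real.norm_of_nonneg hc.le]
    exact mul_le_mul_of_nonneg_left (le_V A x φ hx hφ h) (inv_nonneg.2 hc.le)
  have h3 := (idx_le B h1).trans h2
  rw [← div_eq_inv_mul, le_div_iff₀ hc] at h3
  exact h3

end basic

/-- `E` is a sup-normed sum of the spaces `X i`. -/
structure Sum {Λ : Type*} (E : Type*) [NormedAddCommGroup E] [NormedSpace ℂ E] (X : Λ → Type*)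
    [∀ i, NormedAddCommGroup (X i)] [∀ i, NormedSpace ℂ (X i)] where
  ev : ∀ i, E →L[ℂ] X i
  inj : ∀ i, X i →L[ℂ] E
  ev_inj : ∀ i x, ev i (inj i x) = x
  ev_inj_ne : ∀ i j x, i ≠ j → ev j (inj i x) = 0
  norm_ev : ∀ i e, ‖ev i e‖ ≤ ‖e‖
  norm_le : ∀ e M, 0 ≤ M → (∀ i, ‖ev i e‖ ≤ M) → ‖e‖ ≤ M

section sum

variable {Λ : Type*} {E : Type*} [NormedAddCommGroup E] [NormedSpace ℂ E] {X : Λ → Type*}
    [∀ i, NormedAddCommGroup (X i)] [∀ i, NormedSpace ℂ (X i)] (S : Sum E X) {k : ℕ}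

include S

theorem Sum.norm_inj (i : Λ) (x : X i) : ‖S.inj i x‖ = ‖x‖ := by
  apply le_antisymm
  · apply S.norm_le _ _ (norm_nonneg _)
    intro j
    by_cases h : i = j
    · subst h
      rw [S.ev_inj]
    · rw [S.ev_inj_ne i j x h, norm_zero]
      exact norm_nonneg _
  · calc ‖x‖ = ‖S.ev i (S.inj i x)‖ := by rw [S.ev_inj]
      _ ≤ _ := S.norm_ev i _

/-- replacing the `i`-th coordinate -/
theorem Sum.norm_add (i : Λ) (x : X i) (c : ℂ) (e : E) (he : S.ev i e = 0) :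
    ‖S.inj i x + c • e‖ ≤ max ‖x‖ (‖c‖ * ‖e‖) := by
  apply S.norm_le _ _ (le_max_of_le_left (norm_nonneg _))
  intro j
  rw [map_add, map_smul]
  by_cases h : i = j
  · subst h
    rw [S.ev_inj, he, smul_zero, add_zero]
    exact le_max_left _ _
  · rw [S.ev_inj_ne i j x h, zero_add, norm_smul]
    exact le_max_of_le_right (mul_le_mul_of_nonneg_left (S.norm_ev j e) (norm_nonneg _))

theorem Sum.idx_le_of (i : Λ) (A : ContinuousMultilinearMap ℂ (fun _ : Fin k => X i) (X i))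
    (hA : N A = 1) : Idx k E ≤ V A := by
  set B : ContinuousMultilinearMap ℂ (fun _ : Fin k => E) E :=
    (S.inj i).compContinuousMultilinearMap (A.compContinuousLinearMap (fun _ => S.ev i)) with hB
  have e : ∀ x : E, B (fun _ => x) = S.inj i (A (fun _ => S.ev i x)) := by
    intro x
    simp [hB, ContinuousMultilinearMap.compContinuousLinearMap_apply]
  have h1 : N B = 1 := by
    apply le_antisymm
    · apply N_le _ zero_le_one
      intro x hx
      rw [e, S.norm_inj, ← hA]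
      exact le_N A _ ((S.norm_ev i x).trans hx)
    · rw [← hA]
      apply N_le
      · apply Real.sSup_nonneg
        rintro s ⟨x, -, rfl⟩
        exact norm_nonneg _
      · intro x hx
        have := le_N B (S.inj i x) (by rw [S.norm_inj]; exact hx)
        rwa [e, S.norm_inj, S.ev_inj] at this
  refine (idx_le B h1).trans ?_
  apply V_le _ (V_nonneg A)
  intro x φ hx hφ hφx
  rw [e]
  set ψ : X i →L[ℂ] ℂ := φ.comp (S.inj i) with hψ
  set z := S.ev i x with hz
  set y := x - S.inj i z with hy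
  have hyi : S.ev i y = 0 := by rw [hy, map_sub, S.ev_inj, ← hz, sub_self]
  have hyn : ‖y‖ ≤ 1 := by
    apply S.norm_le _ _ zero_le_one
    intro j
    by_cases h : i = j
    · subst h
      rw [hyi, norm_zero]
      exact zero_le_one
    · rw [hy, map_sub, S.ev_inj_ne i j z h, sub_zero]
      exact (S.norm_ev j x).trans hx.le
  have hsplit : ψ z + φ y = 1 := by
    rw [hψ, ContinuousLinearMap.comp_apply, ← map_add, hy, add_sub_cancel, hφx]
  have hzn : ‖z‖ ≤ 1 := (S.norm_ev i x).trans hx.le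
  -- the key estimate
  have key : ‖ψ‖ + ‖φ y‖ ≤ 1 := by
    suffices h : ‖ψ‖ ≤ 1 - ‖φ y‖ by linarith
    have hφy : ‖φ y‖ ≤ 1 := by
      calc ‖φ y‖ ≤ ‖φ‖ * ‖y‖ := φ.le_opNorm y
        _ ≤ 1 := by rw [hφ, one_mul]; exact hyn
    apply ContinuousLinearMap.opNorm_le_of_unit_norm (by linarith)
    intro w hw
    -- phases
    obtain ⟨a, ha, hae⟩ : ∃ a : ℂ, ‖a‖ = 1 ∧ a * ψ w = ‖ψ w‖ := by
      by_cases h0 : ψ w = 0
      · exact ⟨1, by simp, by simp [h0]⟩
      · refine ⟨(‖ψ w‖ : ℂ) / ψ w, ?_, ?_⟩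
        · rw [norm_div, Complex.norm_real, norm_norm, div_self (norm_ne_zero_iff.2 h0)]
        · rw [div_mul_cancel₀ _ h0]
    obtain ⟨b, hb, hbe⟩ : ∃ b : ℂ, ‖b‖ = 1 ∧ b * φ y = ‖φ y‖ := by
      by_cases h0 : φ y = 0
      · exact ⟨1, by simp, by simp [h0]⟩
      · refine ⟨(‖φ y‖ : ℂ) / φ y, ?_, ?_⟩
        · rw [norm_div, Complex.norm_real, norm_norm, div_self (norm_ne_zero_iff.2 h0)]
        · rw [div_mul_cancel₀ _ h0]
    have h1 : ‖S.inj i (a • w) + b • y‖ ≤ 1 := by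
      refine (S.norm_add i (a • w) b y hyi).trans (max_le ?_ ?_)
      · rw [norm_smul, ha, hw, one_mul]
      · rw [hb, one_mul]; exact hyn
    have h2 : φ (S.inj i (a • w) + b • y) = ((‖ψ w‖ + ‖φ y‖ : ℝ) : ℂ) := by
      rw [map_add, map_smul, map_smul, map_smul]
      have : φ (S.inj i w) = ψ w := rfl
      rw [this, smul_eq_mul, smul_eq_mul, hae, hbe]
      push_cast
      ring
    have h3 := φ.le_opNorm (S.inj i (a • w) + b • y)
    rw [h2, Complex.norm_real, Real.norm_of_nonneg (by positivity), hφ, one_mul] at h3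
    linarith
  have hre : ‖ψ‖ ≤ ‖ψ z‖ := by
    have h1 : (1 : ℝ) ≤ ‖ψ z‖ + ‖φ y‖ := by
      calc (1 : ℝ) = ‖ψ z + φ y‖ := by rw [hsplit]; simp
        _ ≤ _ := norm_add_le _ _
    linarith
  change ‖ψ (A fun _ => z)‖ ≤ V A
  by_cases h0 : ψ = 0
  · rw [h0]; simpa using V_nonneg A
  · have hpos : 0 < ‖ψ‖ := norm_pos_iff.2 h0
    have hz1 : ‖z‖ = 1 := by
      apply le_antisymm hzn
      have := ψ.le_opNorm z
      nlinarith
    have hψz : ‖ψ z‖ = ‖ψ‖ := by
      apply le_antisymm _ hre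
      have := ψ.le_opNorm z
      rwa [hz1, mul_one] at this
    -- `ψ z = ‖ψ‖`
    have hval : ψ z = (‖ψ‖ : ℂ) := by
      have h1 : (1 : ℝ) ≤ (ψ z).re + (φ y).re := by
        have := congrArg Complex.re hsplit
        rw [Complex.add_re, Complex.one_re] at this
        exact this.ge
      have h2 : (φ y).re ≤ ‖φ y‖ := Complex.re_le_norm _
      have h3 : (ψ z).re ≤ ‖ψ z‖ := Complex.re_le_norm _
      have h4 : (ψ z).re = ‖ψ z‖ := by linarith
      have h5 : (ψ z).im = 0 := by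
        have h6 : ‖ψ z‖ ^ 2 = (ψ z).re ^ 2 + (ψ z).im ^ 2 := by
          rw [Complex.sq_norm, Complex.normSq_apply]; ring
        rw [h4] at h6
        have : (ψ z).im ^ 2 = 0 := by linarith
        exact pow_eq_zero_iff (two_ne_zero) |>.1 this
      rw [← hψz]
      apply Complex.ext
      · rw [Complex.ofReal_re]; exact h4
      · rw [Complex.ofReal_im]; exact h5
    set φ' : X i →L[ℂ] ℂ := ((‖ψ‖ : ℂ)⁻¹) • ψ with hφ'
    have hn : ‖φ'‖ = 1 := by
      rw [hφ', norm_smul, norm_inv, Complex.norm_real, norm_norm, inv_mul_cancel₀ hpos.ne']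
    have hv : φ' z = 1 := by
      rw [hφ', ContinuousLinearMap.smul_apply, hval, smul_eq_mul,
        inv_mul_cancel₀ (by exact_mod_cast hpos.ne')]
    have h6 := le_V A z φ' hz1 hn hv
    rw [hφ', ContinuousLinearMap.smul_apply, norm_smul, norm_inv, Complex.norm_real, norm_norm,
      inv_mul_le_iff₀ hpos] at h6
    refine h6.trans ?_
    have h7 : ‖ψ‖ ≤ 1 := by linarith [norm_nonneg (φ y)]
    nlinarith [V_nonneg A]

/-- maximum modulus: the `i`-th coordinate may be taken of norm one -/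
theorem Sum.exists_unit_coord (i : Λ) [Nontrivial (X i)]
    (A : ContinuousMultilinearMap ℂ (fun _ : Fin k => E) E) (x : E) (hx : ‖x‖ ≤ 1) :
    ∃ x' : E, ‖x'‖ ≤ 1 ∧ ‖S.ev i x'‖ = 1 ∧
      ‖S.ev i (A (fun _ => x))‖ ≤ ‖S.ev i (A (fun _ => x'))‖ := by
  set z := S.ev i x with hz
  have hzn : ‖z‖ ≤ 1 := (S.norm_ev i x).trans hx
  obtain ⟨w, t, hw, ht, htw⟩ : ∃ (w : X i) (t : ℂ), ‖w‖ = 1 ∧ ‖t‖ ≤ 1 ∧ t • w = z := by
    by_cases h0 : z = 0
    · obtain ⟨w, hw⟩ := exists_norm_eq (X i) (zero_le_one' ℝ)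
      exact ⟨w, 0, hw, by simp, by simp [h0]⟩
    · refine ⟨((‖z‖ : ℂ)⁻¹) • z, (‖z‖ : ℂ), ?_, ?_, ?_⟩
      · rw [norm_smul, norm_inv, Complex.norm_real, norm_norm,
          inv_mul_cancel₀ (norm_ne_zero_iff.2 h0)]
      · rw [Complex.norm_real, norm_norm]; exact hzn
      · rw [smul_smul, mul_inv_cancel₀ (by exact_mod_cast norm_ne_zero_iff.2 h0), one_smul]
  set y := x - S.inj i z with hy
  have hyi : S.ev i y = 0 := by rw [hy, map_sub, S.ev_inj, ← hz, sub_self]
  have hyn : ‖y‖ ≤ 1 := by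
    apply S.norm_le _ _ zero_le_one
    intro j
    by_cases h : i = j
    · subst h
      rw [hyi, norm_zero]
      exact zero_le_one
    · rw [hy, map_sub, S.ev_inj_ne i j z h, sub_zero]
      exact (S.norm_ev j x).trans hx
  let g : ℂ → E := fun ζ => S.inj i (ζ • w) + y
  have hg : Differentiable ℂ g := by
    have : Differentiable ℂ (fun ζ : ℂ => ζ • w) := differentiable_id.smul_const w
    exact ((S.inj i).differentiable.comp this).add_const y
  let f : ℂ → X i := fun ζ => S.ev i (A (fun _ => g ζ))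
  have hf : Differentiable ℂ f := by
    have h1 : Differentiable ℂ (fun v : Fin k → E => A v) :=
      (A.contDiff (n := 1)).differentiable (by norm_num)
    have h2 : Differentiable ℂ (fun ζ : ℂ => (fun _ : Fin k => g ζ)) :=
      differentiable_pi.2 fun _ => hg
    exact (S.ev i).differentiable.comp (h1.comp h2)
  obtain ⟨ζ, hζ, hmax⟩ := Complex.exists_mem_frontier_isMaxOn_norm (isBounded_ball (x := (0:ℂ)) (r := 1))
    ⟨0, mem_ball_self one_pos⟩ (hf.diffContOnCl (s := ball (0:ℂ) 1))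
  rw [frontier_ball _ one_ne_zero, mem_sphere_zero_iff_norm] at hζ
  rw [closure_ball _ one_ne_zero] at hmax
  refine ⟨g ζ, ?_, ?_, ?_⟩
  · have := S.norm_add i (ζ • w) 1 y hyi
    rw [one_smul] at this
    refine this.trans (max_le ?_ ?_)
    · rw [norm_smul, hζ, hw, one_mul]
    · simpa using hyn
  · change ‖S.ev i (S.inj i (ζ • w) + y)‖ = 1
    rw [map_add, S.ev_inj, hyi, add_zero, norm_smul, hζ, hw, one_mul]
  · have h1 := hmax (show t ∈ closedBall (0:ℂ) 1 by simpa using ht)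
    have h2 : g t = x := by
      change S.inj i (t • w) + y = x
      rw [htw, hy, add_sub_cancel]
    simp only [Function.comp_apply, f] at h1
    have h3 : ‖f t‖ ≤ ‖f ζ‖ := by simpa [f] using h1
    change ‖S.ev i (A fun _ => x)‖ ≤ ‖f ζ‖
    rw [← h2]
    exact h3

theorem Sum.exists_idx_mul_le [∀ i, Nontrivial (X i)] [Nonempty Λ]
    (A : ContinuousMultilinearMap ℂ (fun _ : Fin k => E) E) (hA : N A = 1) (ε : ℝ) (hε : 0 < ε)
    (hε1 : ε < 1) : ∃ i, Idx k (X i) * (1 - ε) ≤ V A := by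
  -- a point where the norm is almost attained
  obtain ⟨s, ⟨x, hx, rfl⟩, hs⟩ := exists_lt_of_lt_csSup
    (s := {s : ℝ | ∃ x : E, ‖x‖ ≤ 1 ∧ s = ‖A (fun _ => x)‖}) ⟨_, 0, by simp, rfl⟩
    (show 1 - ε < N A by rw [hA]; linarith)
  obtain ⟨i, hi⟩ : ∃ i, 1 - ε < ‖S.ev i (A (fun _ => x))‖ := by
    by_contra hcon
    push Not at hcon
    have := S.norm_le _ _ (by linarith) hcon
    linarith
  refine ⟨i, ?_⟩
  obtain ⟨x', hx', hu, hge⟩ := S.exists_unit_coord i A x hx
  set z := S.ev i x' with hz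
  have hz0 : z ≠ 0 := by
    intro h
    rw [h, norm_zero] at hu
    exact zero_ne_one hu
  obtain ⟨θ, hθ, hθz⟩ := exists_dual_vector ℂ z (norm_ne_zero_iff.2 hz0)
  rw [hu] at hθz
  set y := x' - S.inj i z with hy
  have hyi : S.ev i y = 0 := by rw [hy, map_sub, S.ev_inj, ← hz, sub_self]
  have hyn : ‖y‖ ≤ 1 := by
    apply S.norm_le _ _ zero_le_one
    intro j
    by_cases h : i = j
    · subst h
      rw [hyi, norm_zero]
      exact zero_le_one
    · rw [hy, map_sub, S.ev_inj_ne i j z h, sub_zero]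
      exact (S.norm_ev j x').trans hx'
  set T : X i →L[ℂ] E := S.inj i + θ.smulRight y with hT
  have hTv : ∀ v, T v = S.inj i v + θ v • y := fun v => by simp [hT]
  have hTn : ∀ v, ‖T v‖ = ‖v‖ := by
    intro v
    apply le_antisymm
    · rw [hTv]
      refine (S.norm_add i v (θ v) y hyi).trans (max_le le_rfl ?_)
      have := θ.le_opNorm v
      rw [hθ, one_mul] at this
      nlinarith [norm_nonneg (θ v), norm_nonneg y]
    · have : S.ev i (T v) = v := by rw [hTv, map_add, map_smul, S.ev_inj, hyi, smul_zero, add_zero]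
      calc ‖v‖ = ‖S.ev i (T v)‖ := by rw [this]
        _ ≤ _ := S.norm_ev i _
  have hTz : T z = x' := by
    rw [hTv, hθz]
    simp [hy]
  set Q : ContinuousMultilinearMap ℂ (fun _ : Fin k => X i) (X i) :=
    (S.ev i).compContinuousMultilinearMap (A.compContinuousLinearMap (fun _ => T)) with hQ
  have hQv : ∀ v, Q (fun _ => v) = S.ev i (A (fun _ => T v)) := by
    intro v
    simp [hQ, ContinuousMultilinearMap.compContinuousLinearMap_apply]
  have hNQ : 1 - ε < N Q := by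
    have h1 := le_N Q z hu.le
    rw [hQv, hTz] at h1
    linarith
  have hVQ : V Q ≤ V A := by
    apply V_le _ (V_nonneg A)
    intro v φ hv hφ hφv
    rw [hQv]
    set Φ : E →L[ℂ] ℂ := φ.comp (S.ev i) with hΦ
    have hΦ1 : Φ (T v) = 1 := by
      rw [hΦ, ContinuousLinearMap.comp_apply, hTv, map_add, map_smul, S.ev_inj, hyi, smul_zero,
        add_zero, hφv]
    have hΦn : ‖Φ‖ = 1 := by
      apply le_antisymm
      · apply ContinuousLinearMap.opNorm_le_bound _ zero_le_one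
        intro e
        calc ‖φ (S.ev i e)‖ ≤ ‖φ‖ * ‖S.ev i e‖ := φ.le_opNorm _
          _ ≤ 1 * ‖e‖ := by rw [hφ]; exact mul_le_mul_of_nonneg_left (S.norm_ev i e) zero_le_one
      · have := Φ.le_opNorm (T v)
        rw [hΦ1, hTn, hv, mul_one] at this
        simpa using this
    exact le_V A (T v) Φ (by rw [hTn, hv]) hΦn hΦ1
  have h1 := idx_mul_le Q (by linarith : (0:ℝ) < N Q) rfl
  have h2 := idx_nonneg (k := k) (E := X i)
  nlinarith

/-- the polynomial numerical index of a sup-normed sum of complex spaces -/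
theorem Sum.idx_eq [∀ i, Nontrivial (X i)] [Nonempty Λ] (hk : 1 ≤ k) :
    Idx k E = ⨅ i, Idx k (X i) := by
  have hbdd : BddBelow (Set.range fun i => Idx k (X i)) :=
    ⟨0, by rintro _ ⟨i, rfl⟩; exact idx_nonneg⟩
  have hE : Nontrivial E := by
    obtain ⟨i⟩ := ‹Nonempty Λ›
    obtain ⟨x, hx⟩ := exists_ne (0 : X i)
    refine ⟨S.inj i x, 0, fun h => hx ?_⟩
    have := congrArg (S.ev i) h
    rwa [S.ev_inj, map_zero] at this
  apply le_antisymm
  · apply le_ciInf
    intro i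
    apply le_csInf (nonempty_idx hk)
    rintro r ⟨A, hA, rfl⟩
    exact S.idx_le_of i A hA
  · apply le_csInf (nonempty_idx hk)
    rintro r ⟨A, hA, rfl⟩
    apply le_of_forall_pos_le_add
    intro δ hδ
    -- choose ε small
    set M := ⨅ i, Idx k (X i) with hM
    have hM0 : 0 ≤ M := le_ciInf fun i => idx_nonneg
    set ε := min (1/2) (δ / (M + 1)) with hεd
    have hε : 0 < ε := by positivity
    have hε1 : ε < 1 := lt_of_le_of_lt (min_le_left _ _) (by norm_num)
    obtain ⟨i, hi⟩ := S.exists_idx_mul_le A hA ε hε hε1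
    have h1 : M ≤ Idx k (X i) := ciInf_le hbdd i
    have h2 : M * (1 - ε) ≤ V A := le_trans (mul_le_mul_of_nonneg_right h1 (by linarith)) hi
    have h3 : M * ε ≤ δ := by
      calc M * ε ≤ M * (δ / (M + 1)) := mul_le_mul_of_nonneg_left (min_le_right _ _) hM0
        _ = δ * (M / (M + 1)) := by ring
        _ ≤ δ * 1 := by
          apply mul_le_mul_of_nonneg_left _ hδ.le
          rw [div_le_one (by linarith)]
          linarith
        _ = δ := mul_one δ
    nlinarith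

end sum

end Pool.Agent.TH247.PNI
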