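import Mathlib
import Pool.Agent.TH247.PNI.Core

/-!
Polynomial numerical indices of `C(K, X)`, `X` complex.
-/

set_option autoImplicit false

open Metric

namespace Pool.Agent.TH247.PNI

/-- maximum modulus along a complex line -/
theorem exists_circle {k : ℕ} {E F : Type*} [NormedAddCommGroup E] [NormedSpace ℂ E]
    [NormedAddCommGroup F] [NormedSpace ℂ F]
    (A : ContinuousMultilinearMap ℂ (fun _ : Fin k => E) E) (L : E →L[ℂ] F) (u v : E) (t : ℂ)
    (ht : ‖t‖ ≤ 1) : ∃ ζ : ℂ, ‖ζ‖ = 1 ∧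
      ‖L (A fun _ => t • u + v)‖ ≤ ‖L (A fun _ => ζ • u + v)‖ := by
  let g : ℂ → E := fun ζ => ζ • u + v
  have hg : Differentiable ℂ g := (differentiable_id.smul_const u).add_const v
  let f : ℂ → F := fun ζ => L (A (fun _ => g ζ))
  have hf : Differentiable ℂ f := by
    have h1 : Differentiable ℂ (fun v : Fin k → E => A v) :=
      (A.contDiff (n := 1)).differentiable (by norm_num)
    have h2 : Differentiable ℂ (fun ζ : ℂ => (fun _ : Fin k => g ζ)) :=
      differentiable_pi.2 fun _ => hg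
    exact L.differentiable.comp (h1.comp h2)
  obtain ⟨ζ, hζ, hmax⟩ := Complex.exists_mem_frontier_isMaxOn_norm
    (isBounded_ball (x := (0:ℂ)) (r := 1)) ⟨0, mem_ball_self one_pos⟩
    (hf.diffContOnCl (s := ball (0:ℂ) 1))
  rw [frontier_ball _ one_ne_zero, mem_sphere_zero_iff_norm] at hζ
  rw [closure_ball _ one_ne_zero] at hmax
  refine ⟨ζ, hζ, ?_⟩
  have h1 := hmax (show t ∈ closedBall (0:ℂ) 1 by simpa using ht)
  simpa [f, g] using h1

variable {K X : Type*} [TopologicalSpace K] [CompactSpace K] [NormedAddCommGroup X]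
  [NormedSpace ℂ X]

/-- composition of a multilinear map with functions on `K` -/
noncomputable def liftK {k : ℕ} (K : Type*) [TopologicalSpace K] [CompactSpace K]
    (A : ContinuousMultilinearMap ℂ (fun _ : Fin k => X) X) :
    ContinuousMultilinearMap ℂ (fun _ : Fin k => C(K, X)) C(K, X) :=
  MultilinearMap.mkContinuous
    { toFun := fun h => ⟨fun s => A (fun i => h i s),
        A.cont.comp (continuous_pi fun i => (h i).continuous)⟩
      map_update_add' := by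
        intro _ h i x y
        ext s
        have key : ∀ z : C(K, X), (fun j => (Function.update h i z) j s) =
            Function.update (fun j => h j s) i (z s) := by
          intro z
          funext j
          by_cases hj : j = i
          · subst hj; simp
          · simp [Function.update_of_ne hj]
        simp only [ContinuousMap.coe_mk, ContinuousMap.add_apply, key, A.map_update_add]
      map_update_smul' := by
        intro _ h i c x
        ext s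
        have key : ∀ z : C(K, X), (fun j => (Function.update h i z) j s) =
            Function.update (fun j => h j s) i (z s) := by
          intro z
          funext j
          by_cases hj : j = i
          · subst hj; simp
          · simp [Function.update_of_ne hj]
        simp only [ContinuousMap.coe_mk, ContinuousMap.smul_apply, key, A.map_update_smul] }
    ‖A‖ (by
      intro h
      rw [ContinuousMap.norm_le _ (mul_nonneg (norm_nonneg _)
        (Finset.prod_nonneg fun _ _ => norm_nonneg _))]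
      intro s
      refine (A.le_opNorm _).trans ?_
      apply mul_le_mul_of_nonneg_left _ (norm_nonneg _)
      exact Finset.prod_le_prod (fun _ _ => norm_nonneg _) fun i _ => (h i).norm_coe_le_norm s)

theorem liftK_apply {k : ℕ} (A : ContinuousMultilinearMap ℂ (fun _ : Fin k => X) X)
    (h : C(K, X)) (s : K) : (liftK K A (fun _ => h)) s = A (fun _ => h s) := rfl

/-- Lipschitz estimate on the unit ball -/
theorem lip {k : ℕ} {E : Type*} [NormedAddCommGroup E] [NormedSpace ℂ E]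
    (A : ContinuousMultilinearMap ℂ (fun _ : Fin k => E) E) (x y : E) (hx : ‖x‖ ≤ 1)
    (hy : ‖y‖ ≤ 1) : ‖A (fun _ => x) - A (fun _ => y)‖ ≤ ‖A‖ * k * ‖x - y‖ := by
  have h := A.norm_image_sub_le (fun _ => x) (fun _ => y)
  have hx' : ‖(fun _ : Fin k => x)‖ ≤ 1 := (pi_norm_le_iff_of_nonneg zero_le_one).2 fun _ => hx
  have hy' : ‖(fun _ : Fin k => y)‖ ≤ 1 := (pi_norm_le_iff_of_nonneg zero_le_one).2 fun _ => hy
  have hd : ‖(fun _ : Fin k => x) - (fun _ => y)‖ ≤ ‖x - y‖ :=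
    (pi_norm_le_iff_of_nonneg (norm_nonneg _)).2 fun _ => le_rfl
  refine h.trans ?_
  rw [Fintype.card_fin]
  have h1 : max ‖(fun _ : Fin k => x)‖ ‖(fun _ : Fin k => y)‖ ^ (k - 1) ≤ 1 :=
    pow_le_one₀ (le_max_of_le_left (norm_nonneg _)) (max_le hx' hy')
  have h2 : 0 ≤ ‖A‖ * (k : ℝ) := by positivity
  calc ‖A‖ * (k : ℝ) * max ‖(fun _ : Fin k => x)‖ ‖(fun _ : Fin k => y)‖ ^ (k - 1) *
        ‖(fun _ : Fin k => x) - (fun _ => y)‖
      ≤ ‖A‖ * (k : ℝ) * 1 * ‖x - y‖ := by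
        apply mul_le_mul _ hd (norm_nonneg _) (by positivity)
        exact mul_le_mul_of_nonneg_left h1 h2
    _ = _ := by ring

/-- the elementary half of Lumer's formula for homogeneous polynomials -/
theorem lumer {k : ℕ} {E : Type*} [NormedAddCommGroup E] [NormedSpace ℂ E]
    (A : ContinuousMultilinearMap ℂ (fun _ : Fin k => E) E) (ω : ℂ) (hω : ‖ω‖ = 1) (x : E)
    (hx : ‖x‖ ≤ 1) (α : ℝ) (hα : 0 < α) :
    ‖x + ((α : ℂ) * ω) • A (fun _ => x)‖ ≤ 1 + α * V A + 2 * ‖A‖ * (‖A‖ * k) * α ^ 2 := by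
  set u := x + ((α : ℂ) * ω) • A (fun _ => x) with hu
  have hrest : 0 ≤ α * V A + 2 * ‖A‖ * (‖A‖ * k) * α ^ 2 := by
    have := V_nonneg A
    positivity
  by_cases h1 : ‖u‖ ≤ 1
  · linarith
  push Not at h1
  have hu0 : u ≠ 0 := by
    rintro h
    rw [h, norm_zero] at h1
    linarith
  obtain ⟨f, hf, hfu⟩ := exists_dual_vector ℂ u (norm_ne_zero_iff.2 hu0)
  set v : E := ((‖u‖ : ℂ)⁻¹) • u with hv
  have hupos : (0 : ℝ) < ‖u‖ := by linarith
  have huC : (‖u‖ : ℂ) ≠ 0 := by exact_mod_cast hupos.ne'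
  have hvn : ‖v‖ = 1 := by
    rw [hv, norm_smul, norm_inv, Complex.norm_real, norm_norm, inv_mul_cancel₀ hupos.ne']
  have hfv : f v = 1 := by
    rw [hv, map_smul, hfu, smul_eq_mul]
    exact inv_mul_cancel₀ huC
  have hc : ‖((α : ℂ) * ω)‖ = α := by
    rw [norm_mul, hω, mul_one, Complex.norm_real, Real.norm_of_nonneg hα.le]
  have hxu : ‖x - u‖ ≤ α * ‖A‖ := by
    rw [hu, sub_add_cancel_left, norm_neg, norm_smul, hc]
    exact mul_le_mul_of_nonneg_left (le_op A x hx) hα.le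
  have huv : ‖u - v‖ ≤ α * ‖A‖ := by
    have e1 : u - v = ((1 : ℂ) - (‖u‖ : ℂ)⁻¹) • u := by rw [sub_smul, one_smul]
    have e2 : ‖(1 : ℂ) - (‖u‖ : ℂ)⁻¹‖ = 1 - ‖u‖⁻¹ := by
      have : (1 : ℂ) - (‖u‖ : ℂ)⁻¹ = ((1 - ‖u‖⁻¹ : ℝ) : ℂ) := by push_cast; ring
      rw [this, Complex.norm_real, Real.norm_of_nonneg]
      have : ‖u‖⁻¹ ≤ 1 := inv_le_one_of_one_le₀ h1.le
      linarith
    rw [e1, norm_smul, e2, sub_mul, inv_mul_cancel₀ hupos.ne', one_mul]
    have : ‖u‖ ≤ ‖x‖ + ‖x - u‖ := by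
      have := norm_sub_norm_le u x
      rw [norm_sub_rev] at this
      linarith
    linarith
  have hxv : ‖x - v‖ ≤ 2 * α * ‖A‖ := by
    calc ‖x - v‖ = ‖(x - u) + (u - v)‖ := by rw [sub_add_sub_cancel]
      _ ≤ _ := norm_add_le _ _
      _ ≤ α * ‖A‖ + α * ‖A‖ := add_le_add hxu huv
      _ = _ := by ring
  -- `x = u - α ω A x`
  have e3 : f x = ‖u‖ - ((α : ℂ) * ω) * f (A fun _ => v) -
      ((α : ℂ) * ω) * f ((A fun _ => x) - (A fun _ => v)) := by
    have e4 : f u = f x + ((α : ℂ) * ω) * f (A fun _ => x) := by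
      rw [hu, map_add, map_smul, smul_eq_mul]
    have hfu' : f u = ((‖u‖ : ℝ) : ℂ) := hfu
    rw [map_sub, ← hfu', e4]
    ring
  have h5 : ‖f x‖ ≤ 1 := by
    calc ‖f x‖ ≤ ‖f‖ * ‖x‖ := f.le_opNorm x
      _ ≤ 1 := by rw [hf, one_mul]; exact hx
  have h6 : ‖((α : ℂ) * ω) * f (A fun _ => v)‖ ≤ α * V A := by
    rw [norm_mul, hc]
    exact mul_le_mul_of_nonneg_left (le_V A v f hvn hf hfv) hα.le
  have h7 : ‖((α : ℂ) * ω) * f ((A fun _ => x) - (A fun _ => v))‖ ≤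
      α * (‖A‖ * k * (2 * α * ‖A‖)) := by
    rw [norm_mul, hc]
    apply mul_le_mul_of_nonneg_left _ hα.le
    calc ‖f ((A fun _ => x) - (A fun _ => v))‖ ≤ ‖f‖ * ‖(A fun _ => x) - (A fun _ => v)‖ :=
          f.le_opNorm _
      _ = ‖(A fun _ => x) - (A fun _ => v)‖ := by rw [hf, one_mul]
      _ ≤ ‖A‖ * k * ‖x - v‖ := lip A x v hx hvn.le
      _ ≤ _ := mul_le_mul_of_nonneg_left hxv (by positivity)
  have h8 : ‖u‖ ≤ ‖f x‖ + ‖((α : ℂ) * ω) * f (A fun _ => v)‖ +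
      ‖((α : ℂ) * ω) * f ((A fun _ => x) - (A fun _ => v))‖ := by
    have e9 : (‖u‖ : ℂ) = f x + ((α : ℂ) * ω) * f (A fun _ => v) +
        ((α : ℂ) * ω) * f ((A fun _ => x) - (A fun _ => v)) := by
      rw [e3]; ring
    calc ‖u‖ = ‖(‖u‖ : ℂ)‖ := by rw [Complex.norm_real, norm_norm]
      _ = _ := by rw [e9]
      _ ≤ _ := norm_add₃_le
  nlinarith

/-- the numerical radius does not grow under `A ↦ A ∘ ·` -/
theorem V_liftK {k : ℕ} [Nonempty K] (A : ContinuousMultilinearMap ℂ (fun _ : Fin k => X) X) :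
    V (liftK K A) ≤ V A := by
  apply V_le _ (V_nonneg A)
  intro h Φ hh hΦ hΦh
  obtain ⟨ω, hω, hωe⟩ : ∃ ω : ℂ, ‖ω‖ = 1 ∧ ω * Φ (liftK K A fun _ => h) =
      ‖Φ (liftK K A fun _ => h)‖ := by
    by_cases h0 : Φ (liftK K A fun _ => h) = 0
    · exact ⟨1, by simp, by simp [h0]⟩
    · refine ⟨(‖Φ (liftK K A fun _ => h)‖ : ℂ) / Φ (liftK K A fun _ => h), ?_, ?_⟩
      · rw [norm_div, Complex.norm_real, norm_norm, div_self (norm_ne_zero_iff.2 h0)]
      · rw [div_mul_cancel₀ _ h0]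
  set r := ‖Φ (liftK K A fun _ => h)‖ with hr
  have key : ∀ α : ℝ, 0 < α → r ≤ V A + 2 * ‖A‖ * (‖A‖ * k) * α := by
    intro α hα
    have h1 : Φ (h + ((α : ℂ) * ω) • (liftK K A fun _ => h)) = ((1 + α * r : ℝ) : ℂ) := by
      rw [map_add, map_smul, hΦh, smul_eq_mul, mul_assoc, hωe]
      push_cast
      ring
    have h2 : ‖h + ((α : ℂ) * ω) • (liftK K A fun _ => h)‖ ≤
        1 + α * V A + 2 * ‖A‖ * (‖A‖ * k) * α ^ 2 := by
      have := V_nonneg A
      rw [ContinuousMap.norm_le _ (by positivity)]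
      intro s
      exact lumer A ω hω (h s) ((h.norm_coe_le_norm s).trans hh.le) α hα
    have h3 := Φ.le_opNorm (h + ((α : ℂ) * ω) • (liftK K A fun _ => h))
    have hr0 : 0 ≤ r := norm_nonneg _
    rw [h1, hΦ, one_mul, Complex.norm_real, Real.norm_of_nonneg (by positivity)] at h3
    have h4 : α * r ≤ α * (V A + 2 * ‖A‖ * (‖A‖ * k) * α) := by nlinarith
    exact le_of_mul_le_mul_left h4 hα
  set D := 2 * ‖A‖ * (‖A‖ * k) with hD
  have hD0 : 0 ≤ D := by positivity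
  apply le_of_forall_pos_le_add
  intro ε hε
  have h5 := key (ε / (D + 1)) (by positivity)
  have h6 : D * (ε / (D + 1)) ≤ ε := by
    calc D * (ε / (D + 1)) = ε * (D / (D + 1)) := by ring
      _ ≤ ε * 1 := by
        apply mul_le_mul_of_nonneg_left _ hε.le
        rw [div_le_one (by linarith)]
        linarith
      _ = ε := mul_one _
  linarith

/-- the extension operator `x ↦ φ x + θ(x) (1 - φ) y` -/
noncomputable def ext (φ : C(K, ℝ)) (h0 : ∀ s, 0 ≤ φ s) (h1 : ∀ s, φ s ≤ 1) (θ : X →L[ℂ] ℂ)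
    (hθ : ‖θ‖ = 1) (y : C(K, X)) (hy : ‖y‖ ≤ 1) : X →L[ℂ] C(K, X) :=
  LinearMap.mkContinuous
    { toFun := fun x => ⟨fun s => ((φ s : ℝ) : ℂ) • x + θ x • (((1 - φ s : ℝ) : ℂ) • y s), by
        fun_prop⟩
      map_add' := by
        intro x x'
        ext s
        simp only [ContinuousMap.coe_mk, ContinuousMap.add_apply, map_add, smul_add, add_smul]
        abel
      map_smul' := by
        intro c x
        ext s
        simp only [ContinuousMap.coe_mk, ContinuousMap.smul_apply, map_smul, RingHom.id_apply,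
          smul_add, smul_eq_mul, mul_smul]
        rw [smul_comm] }
    1 (by
      intro x
      rw [one_mul, LinearMap.coe_mk, AddHom.coe_mk, ContinuousMap.norm_le _ (norm_nonneg _)]
      intro s
      have e1 : ‖((φ s : ℝ) : ℂ) • x‖ = φ s * ‖x‖ := by
        rw [norm_smul, Complex.norm_real, Real.norm_of_nonneg (h0 s)]
      have e2 : ‖θ x • (((1 - φ s : ℝ) : ℂ) • y s)‖ ≤ (1 - φ s) * ‖x‖ := by
        rw [norm_smul, norm_smul, Complex.norm_real, Real.norm_of_nonneg (by linarith [h1 s])]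
        have e3 : ‖θ x‖ ≤ ‖x‖ := by
          have := θ.le_opNorm x
          rwa [hθ, one_mul] at this
        have e4 : ‖y s‖ ≤ 1 := (y.norm_coe_le_norm s).trans hy
        have e5 : 0 ≤ 1 - φ s := by linarith [h1 s]
        calc ‖θ x‖ * ((1 - φ s) * ‖y s‖) ≤ ‖x‖ * ((1 - φ s) * 1) := by
              apply mul_le_mul e3 _ (by positivity) (norm_nonneg _)
              exact mul_le_mul_of_nonneg_left e4 e5
          _ = _ := by ring
      calc ‖((φ s : ℝ) : ℂ) • x + θ x • (((1 - φ s : ℝ) : ℂ) • y s)‖ ≤ _ := norm_add_le _ _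
        _ ≤ φ s * ‖x‖ + (1 - φ s) * ‖x‖ := by rw [e1]; linarith
        _ = ‖x‖ := by ring)

theorem ext_apply (φ : C(K, ℝ)) (h0 : ∀ s, 0 ≤ φ s) (h1 : ∀ s, φ s ≤ 1) (θ : X →L[ℂ] ℂ)
    (hθ : ‖θ‖ = 1) (y : C(K, X)) (hy : ‖y‖ ≤ 1) (x : X) (s : K) :
    ext φ h0 h1 θ hθ y hy x s = ((φ s : ℝ) : ℂ) • x + θ x • (((1 - φ s : ℝ) : ℂ) • y s) := rfl

theorem norm_ext_le (φ : C(K, ℝ)) (h0 : ∀ s, 0 ≤ φ s) (h1 : ∀ s, φ s ≤ 1) (θ : X →L[ℂ] ℂ)
    (hθ : ‖θ‖ = 1) (y : C(K, X)) (hy : ‖y‖ ≤ 1) (x : X) :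
    ‖ext φ h0 h1 θ hθ y hy x‖ ≤ ‖x‖ := by
  have h := (ext φ h0 h1 θ hθ y hy).le_opNorm x
  have h2 : ‖ext φ h0 h1 θ hθ y hy‖ ≤ 1 := LinearMap.mkContinuous_norm_le _ zero_le_one _
  calc _ ≤ ‖ext φ h0 h1 θ hθ y hy‖ * ‖x‖ := h
    _ ≤ 1 * ‖x‖ := mul_le_mul_of_nonneg_right h2 (norm_nonneg _)
    _ = _ := one_mul _

/-- the main step: transfer of a polynomial on `C(K, X)` to `X` -/
theorem transfer {k : ℕ} [Nonempty K] [Nontrivial X] (c : ℝ) (hc : 0 < c)
    (H : ∀ (A : ContinuousMultilinearMap ℂ (fun _ : Fin k => X) X) (y : X), ‖y‖ ≤ 1 →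
      ∀ ε : ℝ, 0 < ε →
        ∃ (x : X) (f : X →L[ℂ] ℂ), ‖x‖ = 1 ∧ ‖f‖ = 1 ∧ f x = 1 ∧
          c * ‖A (fun _ => y)‖ - ε < ‖f (A (fun _ => x))‖)
    (A : ContinuousMultilinearMap ℂ (fun _ : Fin k => C(K, X)) C(K, X)) (y : C(K, X))
    (hy : ‖y‖ ≤ 1) (ε : ℝ) (hε : 0 < ε) :
    ∃ (x : C(K, X)) (f : C(K, X) →L[ℂ] ℂ), ‖x‖ = 1 ∧ ‖f‖ = 1 ∧ f x = 1 ∧
          c * ‖A (fun _ => y)‖ - ε < ‖f (A (fun _ => x))‖ := by
  -- a point where the norm is attained
  obtain ⟨s₀, hs₀⟩ : ∃ s₀ : K, ‖A (fun _ => y)‖ = ‖(A (fun _ => y)) s₀‖ := by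
    obtain ⟨s₀, -, hs₀⟩ := isCompact_univ.exists_isMaxOn (Set.univ_nonempty (α := K))
      (f := fun s => ‖(A (fun _ => y)) s‖) (by fun_prop)
    refine ⟨s₀, le_antisymm ?_ ((A (fun _ => y)).norm_coe_le_norm s₀)⟩
    rw [ContinuousMap.norm_le _ (norm_nonneg _)]
    intro s
    exact hs₀ (Set.mem_univ s)
  -- choose δ
  set D : ℝ := ‖A‖ * k with hD
  have hD0 : 0 ≤ D := by positivity
  set δ : ℝ := ε / (2 * c * (D + 1)) with hδ
  have hδ0 : 0 < δ := by positivity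
  have hcδ : c * (D * δ) ≤ ε / 2 := by
    rw [hδ]
    have : c * (D * (ε / (2 * c * (D + 1)))) = (ε / 2) * (D / (D + 1)) := by
      field_simp
    rw [this]
    calc (ε / 2) * (D / (D + 1)) ≤ (ε / 2) * 1 := by
          apply mul_le_mul_of_nonneg_left _ (by positivity)
          rw [div_le_one (by linarith)]
          linarith
      _ = _ := mul_one _
  -- the bump function
  let φ : C(K, ℝ) := ⟨fun s => max 0 (1 - ‖y s - y s₀‖ / δ), by fun_prop⟩
  have hφ0 : ∀ s, 0 ≤ φ s := fun s => le_max_left _ _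
  have hφ1 : ∀ s, φ s ≤ 1 := fun s => max_le zero_le_one (by
    have : 0 ≤ ‖y s - y s₀‖ / δ := by positivity
    linarith)
  have hφs : φ s₀ = 1 := by
    change max 0 (1 - ‖y s₀ - y s₀‖ / δ) = 1
    simp
  have hφd : ∀ s, φ s * ‖y s - y s₀‖ ≤ δ := by
    intro s
    change max 0 (1 - ‖y s - y s₀‖ / δ) * ‖y s - y s₀‖ ≤ δ
    by_cases h : ‖y s - y s₀‖ ≤ δ
    · calc max 0 (1 - ‖y s - y s₀‖ / δ) * ‖y s - y s₀‖ ≤ 1 * δ := by
            apply mul_le_mul (hφ1 s) h (norm_nonneg _) zero_le_one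
        _ = δ := one_mul _
    · push Not at h
      have : 1 - ‖y s - y s₀‖ / δ ≤ 0 := by
        rw [sub_nonpos, one_le_div hδ0]
        exact h.le
      rw [max_eq_left this, zero_mul]
      exact hδ0.le
  -- unit vector `w` with `y s₀ = t w`
  obtain ⟨w, t, hw, ht, htw⟩ : ∃ (w : X) (t : ℂ), ‖w‖ = 1 ∧ ‖t‖ ≤ 1 ∧ t • w = y s₀ := by
    by_cases h0 : y s₀ = 0
    · obtain ⟨w, hw⟩ := exists_norm_eq X (zero_le_one' ℝ)
      exact ⟨w, 0, hw, by simp, by simp [h0]⟩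
    · refine ⟨((‖y s₀‖ : ℂ)⁻¹) • y s₀, (‖y s₀‖ : ℂ), ?_, ?_, ?_⟩
      · rw [norm_smul, norm_inv, Complex.norm_real, norm_norm,
          inv_mul_cancel₀ (norm_ne_zero_iff.2 h0)]
      · rw [Complex.norm_real, norm_norm]; exact (y.norm_coe_le_norm s₀).trans hy
      · rw [smul_smul, mul_inv_cancel₀ (by exact_mod_cast norm_ne_zero_iff.2 h0), one_smul]
  let u : C(K, X) := ⟨fun s => ((φ s : ℝ) : ℂ) • w, by fun_prop⟩
  let v : C(K, X) := ⟨fun s => ((1 - φ s : ℝ) : ℂ) • y s, by fun_prop⟩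
  obtain ⟨ζ, hζ, hmax⟩ := exists_circle A (ContinuousMap.evalCLM ℂ s₀) u v t ht
  set z : X := ζ • w with hz
  have hzn : ‖z‖ = 1 := by rw [hz, norm_smul, hζ, hw, one_mul]
  have hz0 : z ≠ 0 := by
    intro h
    rw [h, norm_zero] at hzn
    exact zero_ne_one hzn
  obtain ⟨θ, hθ, hθz⟩ := exists_dual_vector ℂ z (norm_ne_zero_iff.2 hz0)
  have hθz1 : θ z = 1 := by rw [hθz, hzn]; simp
  set T := ext φ hφ0 hφ1 θ hθ y hy with hT
  have hTz : T z = ζ • u + v := by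
    ext s
    rw [hT, ext_apply, hθz1, one_smul, ContinuousMap.add_apply, ContinuousMap.smul_apply]
    change _ = ζ • (((φ s : ℝ) : ℂ) • w) + ((1 - φ s : ℝ) : ℂ) • y s
    rw [hz, smul_comm]
  have hTs : ∀ x, T x s₀ = x := by
    intro x
    rw [hT, ext_apply, hφs]
    simp
  have hTn : ∀ x, ‖T x‖ = ‖x‖ := by
    intro x
    apply le_antisymm (norm_ext_le _ _ _ _ _ _ _ _)
    calc ‖x‖ = ‖T x s₀‖ := by rw [hTs]
      _ ≤ _ := (T x).norm_coe_le_norm s₀
  set Q : ContinuousMultilinearMap ℂ (fun _ : Fin k => X) X :=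
    (ContinuousMap.evalCLM ℂ s₀).compContinuousMultilinearMap
      (A.compContinuousLinearMap (fun _ => T)) with hQ
  have hQv : ∀ x, Q (fun _ => x) = (A (fun _ => T x)) s₀ := by
    intro x
    simp [hQ, ContinuousMultilinearMap.compContinuousLinearMap_apply]
  obtain ⟨x, f, hx, hf, hfx, hbig⟩ := H Q z hzn.le (ε / 2) (by positivity)
  -- the distance between `y` and `t u + v`
  have hdist : ‖(t • u + v) - y‖ ≤ δ := by
    rw [ContinuousMap.norm_le _ hδ0.le]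
    intro s
    have e1 : ((t • u + v) - y) s = ((φ s : ℝ) : ℂ) • (y s₀ - y s) := by
      rw [ContinuousMap.sub_apply, ContinuousMap.add_apply, ContinuousMap.smul_apply]
      change t • (((φ s : ℝ) : ℂ) • w) + ((1 - φ s : ℝ) : ℂ) • y s - y s = _
      rw [smul_comm, htw, Complex.ofReal_sub, Complex.ofReal_one, sub_smul, one_smul, smul_sub]
      abel
    rw [e1, norm_smul, Complex.norm_real, Real.norm_of_nonneg (hφ0 s), norm_sub_rev]
    exact hφd s
  have hball : ‖t • u + v‖ ≤ 1 := by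
    rw [ContinuousMap.norm_le _ zero_le_one]
    intro s
    rw [ContinuousMap.add_apply, ContinuousMap.smul_apply]
    change ‖t • (((φ s : ℝ) : ℂ) • w) + ((1 - φ s : ℝ) : ℂ) • y s‖ ≤ 1
    have h2 : 0 ≤ 1 - φ s := by linarith [hφ1 s]
    calc _ ≤ ‖t • (((φ s : ℝ) : ℂ) • w)‖ + ‖((1 - φ s : ℝ) : ℂ) • y s‖ := norm_add_le _ _
      _ = ‖t‖ * φ s + (1 - φ s) * ‖y s‖ := by
        rw [norm_smul, norm_smul, norm_smul, hw, mul_one, Complex.norm_real, Complex.norm_real,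
          Real.norm_of_nonneg (hφ0 s), Real.norm_of_nonneg h2]
      _ ≤ 1 * φ s + (1 - φ s) * 1 := by
        apply add_le_add
        · exact mul_le_mul_of_nonneg_right ht (hφ0 s)
        · exact mul_le_mul_of_nonneg_left ((y.norm_coe_le_norm s).trans hy) h2
      _ = 1 := by ring
  have hclose : ‖A (fun _ => y)‖ - D * δ ≤ ‖Q (fun _ => z)‖ := by
    have h1 : ‖(A fun _ => t • u + v) - (A fun _ => y)‖ ≤ D * δ :=
      (lip A _ _ hball hy).trans (mul_le_mul_of_nonneg_left hdist hD0)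
    have h2 : ‖(A fun _ => t • u + v) s₀ - (A fun _ => y) s₀‖ ≤ D * δ := by
      have := ((A fun _ => t • u + v) - (A fun _ => y)).norm_coe_le_norm s₀
      exact this.trans h1
    have h3 : ‖(A fun _ => t • u + v) s₀‖ ≤ ‖Q (fun _ => z)‖ := by
      rw [hQv, hTz]
      exact hmax
    have h4 : ‖(A fun _ => y) s₀‖ - ‖(A fun _ => t • u + v) s₀‖ ≤
        ‖(A fun _ => t • u + v) s₀ - (A fun _ => y) s₀‖ := by
      rw [norm_sub_rev]
      exact norm_sub_norm_le _ _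
    rw [hs₀]
    linarith
  refine ⟨T x, f.comp (ContinuousMap.evalCLM ℂ s₀), by rw [hTn, hx], ?_, ?_, ?_⟩
  · apply le_antisymm
    · apply ContinuousLinearMap.opNorm_le_bound _ zero_le_one
      intro e
      change ‖f (e s₀)‖ ≤ 1 * ‖e‖
      calc ‖f (e s₀)‖ ≤ ‖f‖ * ‖e s₀‖ := f.le_opNorm _
        _ ≤ 1 * ‖e‖ := by rw [hf]; exact mul_le_mul_of_nonneg_left (e.norm_coe_le_norm s₀) zero_le_one
    · have h1 := (f.comp (ContinuousMap.evalCLM ℂ s₀)).le_opNorm (T x)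
      have h2 : (f.comp (ContinuousMap.evalCLM ℂ s₀)) (T x) = 1 := by
        change f (T x s₀) = 1
        rw [hTs, hfx]
      rw [h2, hTn, hx, mul_one] at h1
      simpa using h1
  · change f (T x s₀) = 1
    rw [hTs, hfx]
  · change _ < ‖f ((A fun _ => T x) s₀)‖
    rw [← hQv]
    refine lt_of_le_of_lt ?_ hbig
    have : c * (‖A (fun _ => y)‖ - D * δ) ≤ c * ‖Q (fun _ => z)‖ :=
      mul_le_mul_of_nonneg_left hclose hc.le
    nlinarith

theorem index_CK (k : ℕ) [Nonempty K] [Nontrivial X] (c : ℝ) :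
    (∀ (A : ContinuousMultilinearMap ℂ (fun _ : Fin k => X) X) (y : X), ‖y‖ ≤ 1 →
      ∀ ε : ℝ, 0 < ε →
        ∃ (x : X) (f : X →L[ℂ] ℂ), ‖x‖ = 1 ∧ ‖f‖ = 1 ∧ f x = 1 ∧
          c * ‖A (fun _ => y)‖ - ε < ‖f (A (fun _ => x))‖) ↔
    (∀ (A : ContinuousMultilinearMap ℂ (fun _ : Fin k => C(K, X)) C(K, X)) (y : C(K, X)),
      ‖y‖ ≤ 1 → ∀ ε : ℝ, 0 < ε →
        ∃ (x : C(K, X)) (f : C(K, X) →L[ℂ] ℂ), ‖x‖ = 1 ∧ ‖f‖ = 1 ∧ f x = 1 ∧
          c * ‖A (fun _ => y)‖ - ε < ‖f (A (fun _ => x))‖) := by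
  constructor
  · intro H A y hy ε hε
    by_cases hc : 0 < c
    · exact transfer c hc H A y hy ε hε
    · push Not at hc
      obtain ⟨x, f, h1, h2, h3⟩ := exists_unit (E := C(K, X))
      refine ⟨x, f, h1, h2, h3, ?_⟩
      have h4 : c * ‖A (fun _ => y)‖ ≤ 0 := mul_nonpos_of_nonpos_of_nonneg hc (norm_nonneg _)
      linarith [norm_nonneg (f (A fun _ => x))]
  · intro H A y hy ε hε
    have hcy : ‖ContinuousMap.const K y‖ ≤ 1 := by
      rw [ContinuousMap.norm_le _ zero_le_one]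
      intro s
      exact hy
    have hAy : ‖A (fun _ => y)‖ ≤ ‖liftK K A (fun _ => ContinuousMap.const K y)‖ := by
      obtain ⟨s⟩ := ‹Nonempty K›
      exact (liftK K A (fun _ => ContinuousMap.const K y)).norm_coe_le_norm s
    have hAy' : ‖liftK K A (fun _ => ContinuousMap.const K y)‖ ≤ ‖A (fun _ => y)‖ := by
      rw [ContinuousMap.norm_le _ (norm_nonneg _)]
      intro s
      exact le_rfl
    have hle : c * ‖A (fun _ => y)‖ ≤ V A := by
      apply le_of_forall_pos_le_add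
      intro δ hδ
      obtain ⟨x, f, h1, h2, h3, h4⟩ := H (liftK K A) (ContinuousMap.const K y) hcy δ hδ
      have h5 := (le_V (liftK K A) x f h1 h2 h3).trans (V_liftK A)
      rw [le_antisymm hAy' hAy] at h4
      linarith
    have hlt : c * ‖A (fun _ => y)‖ - ε < V A := by linarith
    have hne : {s : ℝ | ∃ (x : X) (φ : X →L[ℂ] ℂ), ‖x‖ = 1 ∧ ‖φ‖ = 1 ∧ φ x = 1 ∧
                  s = ‖φ (A (fun _ => x))‖}.Nonempty := by
      obtain ⟨x, f, h1, h2, h3⟩ := exists_unit (E := X)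
      exact ⟨_, x, f, h1, h2, h3, rfl⟩
    obtain ⟨s, ⟨x, f, h1, h2, h3, rfl⟩, h4⟩ := exists_lt_of_lt_csSup hne hlt
    exact ⟨x, f, h1, h2, h3, h4⟩

end Pool.Agent.TH247.PNI
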