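import Mathlib
import Pool.Agent.TH247.PNI.Core

/-!
The `ℓ_∞`-sum and the `c₀`-sum are sup-normed sums in the sense of `PNI.Sum`.
-/

set_option autoImplicit false

open scoped ENNReal Topology
open Filter

namespace Pool.Agent.TH247.PNI

variable {Λ : Type*} {X : Λ → Type*} [∀ i, NormedAddCommGroup (X i)] [∀ i, NormedSpace ℂ (X i)]

/-- evaluation at `i` as a continuous linear map on the `ℓ_∞`-sum -/
noncomputable def evL (X : Λ → Type*) [∀ i, NormedAddCommGroup (X i)] [∀ i, NormedSpace ℂ (X i)]
    (i : Λ) : lp X ∞ →L[ℂ] X i :=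
  LinearMap.mkContinuous
    { toFun := fun f => f i
      map_add' := fun f g => rfl
      map_smul' := fun c f => rfl } 1 (fun f => by
        rw [one_mul]
        exact lp.norm_apply_le_norm ENNReal.top_ne_zero f i)

theorem evL_apply (i : Λ) (f : lp X ∞) : evL X i f = f i := rfl

open Classical in
/-- the `i`-th injection -/
noncomputable def injL (X : Λ → Type*) [∀ i, NormedAddCommGroup (X i)] [∀ i, NormedSpace ℂ (X i)]
    (i : Λ) : X i →L[ℂ] lp X ∞ :=
  LinearMap.mkContinuous
    { toFun := fun x => lp.single ∞ i x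
      map_add' := fun x y => lp.single_add _ _ _ _
      map_smul' := fun c x => lp.single_smul _ _ _ _ } 1 (fun x => by
        rw [one_mul]
        exact (lp.norm_single (by simp) i x).le)

open Classical in
theorem injL_apply (i : Λ) (x : X i) (j : Λ) : (injL X i x) j = Pi.single i x j := rfl

noncomputable def sumL (X : Λ → Type*) [∀ i, NormedAddCommGroup (X i)]
    [∀ i, NormedSpace ℂ (X i)] : Sum (lp X ∞) X where
  ev := evL X
  inj := injL X
  ev_inj i x := by
    classical
    rw [evL_apply, injL_apply, Pi.single_eq_same]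
  ev_inj_ne i j x h := by
    classical
    rw [evL_apply, injL_apply, Pi.single_eq_of_ne (Ne.symm h)]
  norm_ev i e := lp.norm_apply_le_norm ENNReal.top_ne_zero e i
  norm_le e M hM h := lp.norm_le_of_forall_le hM h

noncomputable def sumC (C : Submodule ℂ (lp X ∞))
    (hC : ∀ f : lp X ∞, f ∈ C ↔ Tendsto (fun i => ‖f i‖) cofinite (𝓝 0)) : Sum C X where
  ev i := (evL X i).comp C.subtypeL
  inj i := (injL X i).codRestrict C (by
    intro x
    classical
    rw [hC]
    apply tendsto_nhds_of_eventually_eq
    rw [eventually_cofinite]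
    apply (Set.finite_singleton i).subset
    intro j hj
    by_contra hne
    apply hj
    rw [injL_apply, Pi.single_eq_of_ne hne, norm_zero])
  ev_inj i x := (sumL X).ev_inj i x
  ev_inj_ne i j x h := (sumL X).ev_inj_ne i j x h
  norm_ev i e := (sumL X).norm_ev i e
  norm_le e M hM h := (sumL X).norm_le e M hM h

end Pool.Agent.TH247.PNI
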